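import Pool.Agent.Y770.SC.Rep
import Pool.Agent.TH339.MP.Q3

/-!
# Universal almost periods
-/

set_option autoImplicit false

open Complex Filter Topology Set MeasureTheory Metric NumberField IsDedekindDomain
open scoped ENNReal

namespace Pool.Agent.Y770.AP

open Pool.Agent.TH339.MP
open Pool.Agent.Y770.SC (nb tw norm_nb norm_tw bb_tw nm_pos chi_one chi_mul)

/-- simultaneous almost periods are relatively dense -/
lemma rel_dense (n : ℕ) (θ : Fin n → ℝ) {δ : ℝ} (hδ : 0 < δ) :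
    ∃ L : ℝ, 0 < L ∧ ∀ a : ℝ, ∃ T ∈ Icc a (a + L), ∀ k, ‖ee (θ k) T - 1‖ ≤ δ := by
  classical
  set φ : ℝ → (Fin n → ℂ) := fun t k => ee (θ k) t with hφ
  have hbd : Set.range φ ⊆ closedBall (0 : Fin n → ℂ) 1 := by
    rintro _ ⟨t, rfl⟩
    rw [mem_closedBall_zero_iff, pi_norm_le_iff_of_nonneg zero_le_one]
    intro k
    simp only [hφ]
    rw [norm_ee]
  have htb : TotallyBounded (Set.range φ) :=
    (isCompact_closedBall (0 : Fin n → ℂ) 1).totallyBounded.subset hbd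
  obtain ⟨s, hs, hsf, hcov⟩ := finite_approx_of_totallyBounded htb δ hδ
  -- the centres
  have hc : ∀ y ∈ s, ∃ t : ℝ, φ t = y := fun y hy => hs hy
  choose! c hc using hc
  obtain ⟨R, hR⟩ : ∃ R : ℝ, ∀ y ∈ s, |c y| ≤ R := by
    obtain ⟨R, hR⟩ := (hsf.image fun y => |c y|).bddAbove
    exact ⟨R, fun y hy => hR ⟨y, hy, rfl⟩⟩
  have hR0 : 0 ≤ max R 0 := le_max_right _ _
  refine ⟨2 * max R 0 + 1, by linarith, fun a => ?_⟩
  have h1 : φ (a + max R 0) ∈ ⋃ y ∈ s, ball y δ := hcov ⟨_, rfl⟩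
  simp only [Set.mem_iUnion] at h1
  obtain ⟨y, hy, hy2⟩ := h1
  have h2 := abs_le.1 ((hR y hy).trans (le_max_left R 0))
  refine ⟨a + max R 0 - c y, ⟨by linarith [h2.2], by linarith [h2.1]⟩, fun k => ?_⟩
  rw [← hc y hy, mem_ball, dist_eq_norm] at hy2
  have h3 : ‖(φ (a + max R 0) - φ (c y)) k‖ ≤ δ := (norm_le_pi_norm _ k).trans hy2.le
  simp only [Pi.sub_apply, hφ] at h3
  have h4 : ee (θ k) (a + max R 0) = ee (θ k) (a + max R 0 - c y) * ee (θ k) (c y) := by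
    rw [← ee_add, sub_add_cancel]
  rw [h4, ← sub_one_mul, norm_mul, norm_ee, mul_one] at h3
  exact h3

/-- `(χ, T)` is an almost period up to `x` -/
def Period (x : ℕ) (δ : ℝ) (c : ℕ → ℂ) (T : ℝ) : Prop :=
  ∀ n : ℕ, 1 ≤ n → n ≤ x → ‖c n * (n : ℂ) ^ (-(T * I)) - 1‖ ≤ δ

lemma cpow_ee {n : ℕ} (hn : 1 ≤ n) (T : ℝ) : (n : ℂ) ^ (-(T * I)) = ee (-Real.log n) T := by
  have hn0 : (n : ℂ) ≠ 0 := by exact_mod_cast (by omega : n ≠ 0)
  rw [Complex.cpow_def_of_ne_zero hn0]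
  unfold Pool.Agent.TH339.MP.ee
  congr 1
  rw [← Complex.natCast_log]
  push_cast
  ring

lemma dense_period (x : ℕ) {δ : ℝ} (hδ : 0 < δ) : ∃ L : ℝ, 0 < L ∧ ∀ a : ℝ,
    ∃ T ∈ Icc a (a + L), Period x δ (fun _ => 1) T := by
  obtain ⟨L, hL, h⟩ := rel_dense (x + 1) (fun k => -Real.log (k : ℕ)) hδ
  refine ⟨L, hL, fun a => ?_⟩
  obtain ⟨T, hT, h1⟩ := h a
  refine ⟨T, hT, fun n hn hnx => ?_⟩
  have h2 := h1 ⟨n, by omega⟩
  simp only at h2
  rw [one_mul, cpow_ee hn]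
  exact h2

lemma card_TX (X : ℕ) : (TX X).card ≤ X := by
  have h1 : (TX X).card = ((TX X).image qq).card := (Finset.card_image_of_injective _ qq_injective).symm
  rw [h1]
  have h2 : (TX X).image qq ⊆ Finset.Icc 1 X := by
    intro n hn
    obtain ⟨x, hx, rfl⟩ := Finset.mem_image.1 hn
    rw [mem_TX] at hx
    have := two_le_qq x
    exact Finset.mem_Icc.2 ⟨by omega, hx⟩
  exact (Finset.card_le_card h2).trans (by simp)

section
variable {b : PP → ℂ} {M : ℝ}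

/-- the twist of the coefficients -/
lemma PS_near (hb : ∀ x, ‖b x‖ ≤ M / (x.2 + 1 : ℕ)) {c : ℕ → ℂ} {X : ℕ} {δ T : ℝ} (hδ : 0 ≤ δ)
    (hT : Period X δ c T) (u : ℝ) :
    ‖PS (fun x => c (qq x) * b x) X (u + T) - PS b X u‖ ≤ M * X * δ := by
  have hM := M_nonneg hb
  unfold Pool.Agent.TH339.MP.PS
  rw [← Finset.sum_sub_distrib]
  have h1 : ∀ x ∈ TX X, ‖c (qq x) * b x * (wt 1 x : ℂ) * ee (fr x) (u + T) -
      b x * (wt 1 x : ℂ) * ee (fr x) u‖ ≤ M * δ := by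
    intro x hx
    rw [mem_TX] at hx
    have hq := two_le_qq x
    have e : c (qq x) * b x * (wt 1 x : ℂ) * ee (fr x) (u + T) - b x * (wt 1 x : ℂ) * ee (fr x) u =
        b x * (wt 1 x : ℂ) * ee (fr x) u * (c (qq x) * ee (fr x) T - 1) := by
      rw [ee_add]
      ring
    have h2 : ‖c (qq x) * ee (fr x) T - 1‖ ≤ δ := by
      have h3 := hT (qq x) (by omega) hx
      rw [cpow_ee (by omega)] at h3
      rwa [fr_eq]
    have h3 : wt 1 x ≤ 1 := by
      rw [wt_one]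
      rw [div_le_one (by positivity)]
      exact_mod_cast (by omega : 1 ≤ qq x)
    rw [e, norm_mul, norm_mul, norm_mul, norm_ee, mul_one, Complex.norm_real,
      Real.norm_of_nonneg (wt_nonneg 1 x)]
    refine mul_le_mul ?_ h2 (norm_nonneg _) hM
    calc ‖b x‖ * wt 1 x ≤ M * 1 :=
          mul_le_mul (norm_b_le hb x) h3 (wt_nonneg 1 x) hM
      _ = M := mul_one M
  refine (norm_sum_le _ _).trans ((Finset.sum_le_sum h1).trans ?_)
  rw [Finset.sum_const, nsmul_eq_mul]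
  have h2 : ((TX X).card : ℝ) ≤ X := by exact_mod_cast card_TX X
  calc ((TX X).card : ℝ) * (M * δ) ≤ X * (M * δ) := mul_le_mul_of_nonneg_right h2 (by positivity)
    _ = M * X * δ := by ring

lemma sq_three (a b c : ℝ) : (a + b + c) ^ 2 ≤ 3 * (a ^ 2 + b ^ 2 + c ^ 2) := by
  nlinarith [sq_nonneg (a - b), sq_nonneg (b - c), sq_nonneg (a - c)]

lemma lint_shift (f : ℝ → ℝ≥0∞) (t T : ℝ) :
    ∫⁻ u in Icc t (t + 1), f (u + T) = ∫⁻ u in Icc (t + T) (t + T + 1), f u := by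
  have h1 := (measurePreserving_add_right (volume : Measure ℝ) T).setLIntegral_comp_preimage_emb
    (measurableEmbedding_addRight T) f (Icc (t + T) (t + T + 1))
  have h2 : (fun x => x + T) ⁻¹' (Icc (t + T) (t + T + 1)) = Icc t (t + 1) := by
    ext u
    simp only [Set.mem_preimage, Set.mem_Icc]
    constructor
    · rintro ⟨h3, h4⟩
      exact ⟨by linarith, by linarith⟩
    · rintro ⟨h3, h4⟩
      exact ⟨by linarith, by linarith⟩
  rw [h2] at h1
  exact h1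

/-- the main estimate -/
theorem close (hb : ∀ x, ‖b x‖ ≤ M / (x.2 + 1 : ℕ)) {c : ℕ → ℂ} (hc : ∀ n, ‖c n‖ ≤ 1) {X : ℕ}
    (hX : 2 ≤ X) {δ T : ℝ} (hδ : 0 ≤ δ) (hT : Period X δ c T) (t : ℝ) :
    ∫⁻ u in Icc t (t + 1), ENNReal.ofReal (‖bl (fun x => c (qq x) * b x) (u + T) - bl b u‖ ^ 2) ≤
      ENNReal.ofReal (3 * (129600 * M ^ 2 / Real.log X + (M * X * δ) ^ 2)) := by
  have hM := M_nonneg hb
  set b' : PP → ℂ := fun x => c (qq x) * b x with hb'
  have hbb : ∀ x, ‖b' x‖ ≤ M / (x.2 + 1 : ℕ) := fun x => by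
    rw [hb']
    simp only
    rw [norm_mul]
    exact (mul_le_of_le_one_left (norm_nonneg _) (hc _)).trans (hb x)
  obtain ⟨m1, -, h1⟩ := boundary hb
  obtain ⟨m2, -, h2⟩ := boundary hbb
  have hlogX : 0 < Real.log X := Real.log_pos (by exact_mod_cast (by omega : 1 < X))
  set E : ℝ := 64800 * M ^ 2 / Real.log X with hE
  have hE0 : 0 ≤ E := by positivity
  have key : ∀ u, ENNReal.ofReal (‖bl b' (u + T) - bl b u‖ ^ 2) ≤
      3 * ENNReal.ofReal (‖bl b' (u + T) - PS b' X (u + T)‖ ^ 2) +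
      (3 * ENNReal.ofReal ((M * X * δ) ^ 2) + 3 * ENNReal.ofReal (‖bl b u - PS b X u‖ ^ 2)) := by
    intro u
    have h3 : ‖bl b' (u + T) - bl b u‖ ≤ ‖bl b' (u + T) - PS b' X (u + T)‖ +
        ‖PS b' X (u + T) - PS b X u‖ + ‖bl b u - PS b X u‖ := by
      have e : bl b' (u + T) - bl b u = (bl b' (u + T) - PS b' X (u + T)) +
          (PS b' X (u + T) - PS b X u) - (bl b u - PS b X u) := by ring
      rw [e]
      exact (norm_sub_le _ _).trans (add_le_add (norm_add_le _ _) le_rfl)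
    have h4 := PS_near hb (c := c) hδ hT u
    have h5 : ‖bl b' (u + T) - bl b u‖ ≤ ‖bl b' (u + T) - PS b' X (u + T)‖ +
        M * X * δ + ‖bl b u - PS b X u‖ := h3.trans (by linarith)
    have h6 : ‖bl b' (u + T) - bl b u‖ ^ 2 ≤ 3 * (‖bl b' (u + T) - PS b' X (u + T)‖ ^ 2 +
        (M * X * δ) ^ 2 + ‖bl b u - PS b X u‖ ^ 2) :=
      (pow_le_pow_left₀ (norm_nonneg _) h5 2).trans (sq_three _ _ _)
    refine (ENNReal.ofReal_le_ofReal h6).trans (le_of_eq ?_)
    rw [ENNReal.ofReal_mul (by norm_num), ENNReal.ofReal_add (by positivity) (by positivity),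
      ENNReal.ofReal_add (by positivity) (by positivity)]
    have e3 : ENNReal.ofReal 3 = 3 := by norm_num
    rw [e3]
    ring
  have m3 : AEMeasurable (fun u => ENNReal.ofReal (‖bl b u - PS b X u‖ ^ 2))
      (volume.restrict (Icc t (t + 1))) := by
    refine ENNReal.measurable_ofReal.comp_aemeasurable ?_
    exact ((m1.restrict.sub (continuous_PS b X).measurable.aemeasurable).norm.pow_const 2)
  calc ∫⁻ u in Icc t (t + 1), ENNReal.ofReal (‖bl b' (u + T) - bl b u‖ ^ 2)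
      ≤ ∫⁻ u in Icc t (t + 1), (3 * ENNReal.ofReal (‖bl b' (u + T) - PS b' X (u + T)‖ ^ 2) +
      (3 * ENNReal.ofReal ((M * X * δ) ^ 2) + 3 * ENNReal.ofReal (‖bl b u - PS b X u‖ ^ 2))) :=
        lintegral_mono key
    _ = 3 * (∫⁻ u in Icc t (t + 1), ENNReal.ofReal (‖bl b' (u + T) - PS b' X (u + T)‖ ^ 2)) +
        (3 * ENNReal.ofReal ((M * X * δ) ^ 2) +
          3 * ∫⁻ u in Icc t (t + 1), ENNReal.ofReal (‖bl b u - PS b X u‖ ^ 2)) := by
        have m4 : AEMeasurable (fun u => 3 * ENNReal.ofReal (‖bl b u - PS b X u‖ ^ 2))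
          (volume.restrict (Icc t (t + 1))) := m3.const_mul 3
        rw [lintegral_add_right' _ (by exact aemeasurable_const.add m4),
          lintegral_add_right' _ m4, lintegral_const_mul' _ _ (by norm_num),
          lintegral_const_mul'' _ m3, lintegral_const]
        simp
    _ ≤ 3 * ENNReal.ofReal E + (3 * ENNReal.ofReal ((M * X * δ) ^ 2) + 3 * ENNReal.ofReal E) := by
        have h7 := h2 X hX (t + T)
        rw [← lint_shift (fun u => ENNReal.ofReal (‖bl b' u - PS b' X u‖ ^ 2))] at h7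
        gcongr
        exact h1 X hX t
    _ = ENNReal.ofReal (3 * (129600 * M ^ 2 / Real.log X + (M * X * δ) ^ 2)) := by
        have e3 : (3 : ℝ≥0∞) = ENNReal.ofReal 3 := by norm_num
        rw [e3, ← ENNReal.ofReal_mul (by norm_num), ← ENNReal.ofReal_mul (by norm_num),
          ← ENNReal.ofReal_add (by positivity) (by positivity),
          ← ENNReal.ofReal_add (by positivity) (by positivity)]
        congr 1
        rw [hE]
        ring

end

/-- the choice of the constants -/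
lemma constants (M ε : ℝ) (hM : 0 ≤ M) (hε : 0 < ε) : ∃ (X : ℕ) (δ : ℝ), 2 ≤ X ∧ 0 < δ ∧
    3 * (129600 * M ^ 2 / Real.log X + (M * X * δ) ^ 2) ≤ ε := by
  have h1 : Tendsto (fun X : ℕ => 129600 * M ^ 2 / Real.log X) atTop (𝓝 0) :=
    Tendsto.const_div_atTop (Real.tendsto_log_atTop.comp tendsto_natCast_atTop_atTop) _
  have h2 : ∀ᶠ X : ℕ in atTop, 129600 * M ^ 2 / Real.log X < ε / 6 :=
    h1.eventually (gt_mem_nhds (by positivity))
  obtain ⟨X, hX1, hX2⟩ := (h2.and (eventually_ge_atTop 2)).exists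
  have hX0 : (0 : ℝ) < X := by exact_mod_cast (by omega : 0 < X)
  refine ⟨X, min 1 (ε / (6 * (M * X + 1) ^ 2)), hX2, lt_min one_pos (by positivity), ?_⟩
  set δ := min 1 (ε / (6 * (M * X + 1) ^ 2)) with hδ
  have hδ0 : 0 < δ := lt_min one_pos (by positivity)
  have h3 : δ ≤ 1 := min_le_left _ _
  have h4 : δ ≤ ε / (6 * (M * X + 1) ^ 2) := min_le_right _ _
  have h5 : (M * X * δ) ^ 2 ≤ ε / 6 := by
    have h6 : (M * X) ^ 2 ≤ (M * X + 1) ^ 2 := by
      have : 0 ≤ M * X := by positivity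
      nlinarith
    have h7 : δ ^ 2 ≤ δ := by nlinarith
    calc (M * X * δ) ^ 2 = (M * X) ^ 2 * δ ^ 2 := by ring
      _ ≤ (M * X + 1) ^ 2 * δ := mul_le_mul h6 h7 (by positivity) (by positivity)
      _ ≤ (M * X + 1) ^ 2 * (ε / (6 * (M * X + 1) ^ 2)) :=
          mul_le_mul_of_nonneg_left h4 (by positivity)
      _ = ε / 6 := by field_simp
  linarith

end Pool.Agent.Y770.AP
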