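import Pool.Agent.Y770.AP.Main
import Pool.Agent.TH958.BV.Defs

/-!
# The logarithms of the twists and their boundary values
-/

set_option autoImplicit false

open Complex Filter Topology Set MeasureTheory Metric NumberField IsDedekindDomain
open scoped ENNReal

namespace Pool.Agent.Y770.AP

open Pool.Agent.TH339.MP
open Pool.Agent.Y770.SC (nb tw norm_nb norm_tw bb_tw nm_pos chi_one chi_mul)
open Pool.Agent.TH958.BV (edgePoint angle)
open Pool.Agent.W350.Edge (divSet dimH_divSet)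

section
variable {K : Type} [Field K] [NumberField K] {N q : ℕ} (χ : DirichletCharacter ℂ q)
  {i : ℕ} {S : Set (HeightOneSpectrum (𝓞 K))} {α : HeightOneSpectrum (𝓞 K) → Fin N → ℂ}

open Classical in
/-- the logarithm of the Euler product of the twist over the primes outside `S` -/
noncomputable def logL (S : Set (HeightOneSpectrum (𝓞 K)))
    (α : HeightOneSpectrum (𝓞 K) → Fin N → ℂ) (s : ℂ) : ℂ :=
  ∑' v : HeightOneSpectrum (𝓞 K), if v ∈ S then 0 else
    ∑ j, -Complex.log (1 - χ ((Ideal.absNorm v.asIdeal : ℕ) : ZMod q) * α v j *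
      (Ideal.absNorm v.asIdeal : ℂ) ^ (-s))

lemma logL_eq (hα : ∀ v, v ∉ S → ∀ j, ‖α v j‖ = (nm v : ℝ) ^ ((i : ℝ) / 2)) {s : ℂ}
    (hs : 1 < s.re) :
    logL χ S α (s + i / 2) =
      FF (bb (tw (fun n : ℕ => χ (n : ZMod q)) (nb i S α))) s := by
  have h1 := hasSum_all (norm_tw (c := fun n : ℕ => χ (n : ZMod q)) (fun n => χ.norm_le_one _)
    (norm_nb hα)) hs
  rw [← h1.tsum_eq]
  unfold logL
  refine tsum_congr fun v => ?_
  unfold Pool.Agent.TH339.MP.lv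
  by_cases hv : v ∈ S
  · rw [if_pos hv]
    symm
    refine Finset.sum_eq_zero fun j _ => ?_
    unfold Pool.Agent.Y770.SC.tw Pool.Agent.Y770.SC.nb
    rw [if_pos hv]
    simp
  · rw [if_neg hv]
    refine Finset.sum_congr rfl fun j _ => ?_
    unfold Pool.Agent.Y770.SC.tw Pool.Agent.Y770.SC.nb
    rw [if_neg hv]
    have hn0 : ((nm v : ℕ) : ℂ) ≠ 0 := by
      have := nm_pos v
      exact_mod_cast this.ne'
    have e1 : ((((nm v : ℝ) ^ ((i : ℝ) / 2) : ℝ)) : ℂ) = ((nm v : ℕ) : ℂ) ^ ((i : ℂ) / 2) := by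
      rw [Complex.ofReal_cpow (Nat.cast_nonneg _)]
      push_cast
      rfl
    have e2 : ((nm v : ℕ) : ℂ) ^ (-(s + i / 2)) =
        ((nm v : ℕ) : ℂ) ^ (-s) / ((nm v : ℕ) : ℂ) ^ ((i : ℂ) / 2) := by
      rw [neg_add, Complex.cpow_add _ _ hn0, Complex.cpow_neg _ ((i : ℂ) / 2), ← div_eq_mul_inv]
    have e3 : (Ideal.absNorm v.asIdeal : ℂ) = ((nm v : ℕ) : ℂ) := rfl
    have e4 : ((Ideal.absNorm v.asIdeal : ℕ) : ZMod q) = ((nm v : ℕ) : ZMod q) := rfl
    rw [e1, e3, e4, e2]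
    congr 3
    ring

/-- the boundary function of the logarithm -/
noncomputable def FB (i : ℕ) (S : Set (HeightOneSpectrum (𝓞 K)))
    (α : HeightOneSpectrum (𝓞 K) → Fin N → ℂ) (τ : ℝ) : ℂ :=
  bl (bb (tw (fun n : ℕ => χ (n : ZMod q)) (nb i S α))) τ

lemma hbtw (hα : ∀ v, v ∉ S → ∀ j, ‖α v j‖ = (nm v : ℝ) ^ ((i : ℝ) / 2)) (x : PP) :
    ‖bb (tw (fun n : ℕ => χ (n : ZMod q)) (nb i S α)) x‖ ≤
      ((Module.finrank ℚ K : ℝ) * N) / (x.2 + 1 : ℕ) :=
  norm_bb (norm_tw (c := fun n : ℕ => χ (n : ZMod q)) (fun n => χ.norm_le_one _)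
      (norm_nb hα)) x

theorem FB_angle (hα : ∀ v, v ∉ S → ∀ j, ‖α v j‖ = (nm v : ℝ) ^ ((i : ℝ) / 2)) :
    ∃ Z : Set ℝ, dimH Z = 0 ∧ ∀ τ : ℝ, τ ∉ Z → ∀ C : ℝ,
      Tendsto (logL χ S α) (𝓝[angle i τ C] (edgePoint i τ)) (𝓝 (FB χ i S α τ)) := by
  set b := bb (tw (fun n : ℕ => χ (n : ZMod q)) (nb i S α)) with hb
  have hbn := hbtw χ hα
  refine ⟨divSet (ap b), (boundary hbn).2.1, fun τ hτ C => ?_⟩
  have h1 := bl_angle hbn hτ C
  have h2 : Tendsto (fun s : ℂ => s - edgePoint i τ) (𝓝[angle i τ C] (edgePoint i τ))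
      (𝓝[{z : ℂ | 0 < z.re ∧ ‖z‖ ≤ C * z.re}] 0) := by
    rw [tendsto_nhdsWithin_iff]
    constructor
    · have h7 : Tendsto (fun s : ℂ => s - edgePoint i τ) (𝓝 (edgePoint i τ))
          (𝓝 (edgePoint i τ - edgePoint i τ)) := (continuous_id.sub continuous_const).tendsto _
      rw [sub_self] at h7
      exact h7.mono_left nhdsWithin_le_nhds
    · filter_upwards [self_mem_nhdsWithin] with s hs
      have hre : (s - edgePoint i τ).re = s.re - ((i : ℝ) / 2 + 1) := by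
        unfold Pool.Agent.TH958.BV.edgePoint
        simp
      refine ⟨?_, ?_⟩
      · rw [hre]
        linarith [hs.1]
      · rw [hre]
        exact hs.2
  refine (h1.comp h2).congr' ?_
  filter_upwards [self_mem_nhdsWithin] with s hs
  have hs1 : 1 < (s - i / 2).re := by
    have e : (s - i / 2).re = s.re - i / 2 := by simp
    rw [e]
    have := hs.1
    linarith
  have h3 := logL_eq χ hα hs1
  rw [sub_add_cancel] at h3
  rw [h3]
  simp only [Function.comp_apply]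
  congr 1
  unfold Pool.Agent.TH958.BV.edgePoint
  push_cast
  ring

theorem FB_close (hα : ∀ v, v ∉ S → ∀ j, ‖α v j‖ = (nm v : ℝ) ^ ((i : ℝ) / 2)) {M : ℝ}
    (hM : (N : ℝ) * Module.finrank ℚ K ≤ M) {X : ℕ}
    (hX : 2 ≤ X) {δ T : ℝ} (hδ : 0 ≤ δ) (hT : Period X δ (fun n : ℕ => χ (n : ZMod q)) T)
    (t : ℝ) :
    ∫⁻ u in Icc t (t + 1), ENNReal.ofReal (‖FB χ i S α (u + T) -
      FB (1 : DirichletCharacter ℂ 1) i S α u‖ ^ 2) ≤
      ENNReal.ofReal (3 * (129600 * M ^ 2 / Real.log X + (M * X * δ) ^ 2)) := by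
  have hb : ∀ x, ‖bb (nb i S α) x‖ ≤ M / (x.2 + 1 : ℕ) := fun x =>
    (norm_bb (norm_nb hα) x).trans (div_le_div_of_nonneg_right (by rw [mul_comm]; exact hM)
      (by positivity))
  have h1 := close hb (c := fun n : ℕ => χ (n : ZMod q)) (fun n => χ.norm_le_one _) hX hδ hT t
  have e1 : (fun x => (fun n : ℕ => χ (n : ZMod q)) (qq x) * bb (nb i S α) x) =
      bb (tw (fun n : ℕ => χ (n : ZMod q)) (nb i S α)) := by
    funext x
    rw [bb_tw (chi_one χ) (chi_mul χ)]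
  have e2 : bb (tw (fun n : ℕ => (1 : DirichletCharacter ℂ 1) (n : ZMod 1)) (nb i S α)) =
      bb (nb i S α) := by
    congr 1
    funext v j
    unfold Pool.Agent.Y770.SC.tw
    have : (1 : DirichletCharacter ℂ 1) ((nm v : ℕ) : ZMod 1) = 1 :=
      MulChar.one_apply (isUnit_of_subsingleton _)
    simp only
    rw [this, one_mul]
  rw [e1] at h1
  unfold FB
  rw [e2]
  exact h1

end

end Pool.Agent.Y770.AP
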